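import Pool.Agent.Y65.Sham.Sham
import Pool.Agent.R390.Abs

/-!
# The Bloch–Kato Selmer group `H¹_f(ℚ, V_p A)` of the abelian varieties `A = E ⊗ M`

`E` is an elliptic curve over `ℚ` with an equation `W` with integral coefficients, `M = ℤ^g` a lattice with
an action `R` of the absolute Galois group of `ℚ`.  The points of `A = E ⊗ M` over an algebraic closure
of `ℚ` are the `g`-tuples of points of `E`, and `σ` acts on them by its action on `E` followed by the
matrix `R(σ)`.  So `V_p A = V_p E ⊗ M` is the `p`-adic realization of the motive `h¹(E)(1) ⊗ M_ℚ`.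

`V_p A = T_p A ⊗ ℚ_p` is described by sequences of points: the element `x` corresponds to the sequence of
the classes of `p⁻ⁿ x` in `V_p A / T_p A = A[p ^ ∞]`.  The local conditions are given by the images of the
local Kummer maps (by Bloch and Kato these are the groups `H¹_f(ℚ_v, V_p A)`).
-/

set_option autoImplicit false

namespace Pool.Agent.K4H13.BK

open WeierstrassCurve
open Pool.Agent.TH841.SH.D (Pt act Gal)

/-- The curve given by the equation of `W` over the ring `R`. -/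
abbrev base (W : WeierstrassCurve ℤ) (R : Type) [CommRing R] : WeierstrassCurve R :=
  W.map (Int.castRingHom R)

/-- The action of an integral matrix on `ℤ^g ⊗ G = G^g`. -/
def mat {G : Type} [AddCommGroup G] {g : ℕ} (A : Matrix (Fin g) (Fin g) ℤ) (P : Fin g → G) :
    Fin g → G := fun i => ∑ j, A i j • P j

/-- The points of `A` over an extension of `ℚ` over which the action on `M` is trivial. -/
abbrev PtA (W : WeierstrassCurve ℤ) (g : ℕ) (L : Type) [Field L] [Algebra ℚ L] : Type :=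
  Fin g → Pt (base W ℚ) L

variable {g : ℕ} (W : WeierstrassCurve ℤ) (R : Gal ℚ →* GL (Fin g) ℤ)

/-- The action of the Galois group on the points of `A`: `σ` applied to the coordinates, and then the
matrix `R(σ)`. -/
noncomputable def actA (σ : Gal ℚ) (P : PtA W g (AlgebraicClosure ℚ)) :
    PtA W g (AlgebraicClosure ℚ) :=
  mat (R σ : Matrix (Fin g) (Fin g) ℤ) (fun i => act (base W ℚ) σ.toAlgHom (P i))

/-- `x = (x₀, x₁, …)` is an element of the rational Tate module `V_p A = T_p A ⊗ ℚ_p`: the `xₙ` are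
points of `A` of `p`-power order with `p xₙ₊₁ = xₙ` (`xₙ` is the class of `p⁻ⁿ x` in
`V_p A / T_p A = A[p ^ ∞]`). -/
def IsV (p : ℕ) (x : ℕ → PtA W g (AlgebraicClosure ℚ)) : Prop :=
  ∀ n, p • x (n + 1) = x n ∧ ∃ m : ℕ, (p ^ m : ℕ) • x n = 0

/-- `H⁰(ℚ, V_p A) = 0`: the elements of `V_p A` fixed by the Galois group are zero. -/
def HZeroTrivial (p : ℕ) : Prop :=
  ∀ x : ℕ → PtA W g (AlgebraicClosure ℚ), IsV W p x → (∀ (σ : Gal ℚ) (n : ℕ),
    actA W R σ (x n) = x n) → ∀ n, x n = 0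

/-- `c` is a continuous cocycle with values in `V_p A`: each coordinate is locally constant, and
`c (σ τ) = c σ + σ (c τ)`. -/
def IsCocycleV (p : ℕ) (c : Gal ℚ → ℕ → PtA W g (AlgebraicClosure ℚ)) : Prop :=
  (∀ n, IsLocallyConstant fun σ => c σ n) ∧ (∀ σ, IsV W p (c σ)) ∧
    ∀ (σ τ : Gal ℚ) (n : ℕ), c (σ * τ) n = c σ n + actA W R σ (c τ n)

/-- The restriction of `c` to the absolute Galois group of the completion `k` of `ℚ` is in the image of
the Kummer map `A(k) ⊗ ℚ_p → H¹(k, V_p A)`: there is a sequence `Q₀, Q₁, …` of points of `A` over the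
algebraic closure of `k` with `p Qₙ₊₁ = Qₙ` such that `(c τ)ₙ = τ Qₙ - Qₙ` for all `n` and `τ`. -/
def LocallyKummer (p : ℕ) (k : Type) [Field k] [Algebra ℚ k]
    (c : Gal ℚ → ℕ → PtA W g (AlgebraicClosure ℚ)) : Prop :=
  ∀ ι : AlgebraicClosure ℚ →ₐ[ℚ] AlgebraicClosure k, ∃ Q : ℕ → PtA W g (AlgebraicClosure k),
    (∀ n, p • Q (n + 1) = Q n) ∧
    ∀ (τ : Gal k) (σ : Gal ℚ), (∀ x, τ (ι x) = ι (σ x)) → ∀ n,
      (fun i => act (base W ℚ) ι (c σ n i)) = mat (R σ : Matrix (Fin g) (Fin g) ℤ)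
        (fun i => act (base W ℚ) (τ.toAlgHom.restrictScalars ℚ) (Q n i)) - Q n

/-- `H¹_f(ℚ, V_p A) = 0`: every continuous cocycle with values in `V_p A` whose restriction to the
completion at every place of `ℚ` is in the image of the local Kummer map is a coboundary. -/
def HOneFTrivial (p : ℕ) : Prop :=
  ∀ c : Gal ℚ → ℕ → PtA W g (AlgebraicClosure ℚ), IsCocycleV W R p c →
    (∀ (l : ℕ) [Fact l.Prime], LocallyKummer W R p ℚ_[l] c) → LocallyKummer W R p ℝ c →
    ∃ x : ℕ → PtA W g (AlgebraicClosure ℚ), IsV W p x ∧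
      ∀ (σ : Gal ℚ) (n : ℕ), c σ n = actA W R σ (x n) - x n

/-! ### From the points and the Tate-Shafarevich group to the Selmer group -/

variable {W R}

/-- the action as a homomorphism -/
noncomputable def actH (W : WeierstrassCurve ℤ) (R : Gal ℚ →* GL (Fin g) ℤ) (σ : Gal ℚ) :
    PtA W g (AlgebraicClosure ℚ) →+ PtA W g (AlgebraicClosure ℚ) :=
  Pool.Agent.Y65.Sham.aA W R σ

theorem actH_apply (σ : Gal ℚ) (P : PtA W g (AlgebraicClosure ℚ)) :
    actH W R σ P = actA W R σ P := rfl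

/-- no invariants if `A(ℚ)` is finite -/
theorem hZero {p : ℕ}
    (hfin : {P : PtA W g (AlgebraicClosure ℚ) | ∀ σ : Gal ℚ, actA W R σ P = P}.Finite) :
    HZeroTrivial W R p := by
  intro x hx hfix
  refine Pool.Agent.R390.Abs.no_inv (p := p) (⊤ : AddSubgroup (PtA W g (AlgebraicClosure ℚ)))
    (actH W R) ?_ x (fun _ => AddSubgroup.mem_top _)
    (fun n => (hx n).1) (fun n => (hx n).2) (fun σ n => hfix σ n)
  refine hfin.subset ?_
  rintro P ⟨-, hP⟩
  exact fun σ => hP σ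

/-- the Selmer group is zero if `A(ℚ)` is finite and the `p`-primary part of `Ш(A/ℚ)` has bounded
exponent -/
theorem hOneF {p : ℕ} (hp : p.Prime)
    (hfin : {P : PtA W g (AlgebraicClosure ℚ) | ∀ σ : Gal ℚ, actA W R σ P = P}.Finite) (m : ℕ)
    (hsha : ∀ f : Gal ℚ → PtA W g (AlgebraicClosure ℚ),
      (IsLocallyConstant f ∧ ∀ σ τ : Gal ℚ, f (σ * τ) = f σ + actA W R σ (f τ)) →
      (∀ (l : ℕ) [Fact l.Prime], ∀ ι : AlgebraicClosure ℚ →ₐ[ℚ] AlgebraicClosure ℚ_[l],
        ∃ P : PtA W g (AlgebraicClosure ℚ_[l]),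
        ∀ (τ : Gal ℚ_[l]) (σ : Gal ℚ), (∀ x, τ (ι x) = ι (σ x)) →
          (fun i => act (base W ℚ) ι (f σ i)) = mat (R σ : Matrix (Fin g) (Fin g) ℤ)
            (fun i => act (base W ℚ) (τ.toAlgHom.restrictScalars ℚ) (P i)) - P) →
      (∀ ι : AlgebraicClosure ℚ →ₐ[ℚ] AlgebraicClosure ℝ,
        ∃ P : PtA W g (AlgebraicClosure ℝ),
        ∀ (τ : Gal ℝ) (σ : Gal ℚ), (∀ x, τ (ι x) = ι (σ x)) →
          (fun i => act (base W ℚ) ι (f σ i)) = mat (R σ : Matrix (Fin g) (Fin g) ℤ)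
            (fun i => act (base W ℚ) (τ.toAlgHom.restrictScalars ℚ) (P i)) - P) →
      ∀ k : ℕ, (∀ σ, (p ^ k : ℕ) • f σ = 0) →
      ∃ P : PtA W g (AlgebraicClosure ℚ), ∀ σ : Gal ℚ, (p ^ m : ℕ) • f σ = actA W R σ P - P) :
    HOneFTrivial W R p := by
  intro c hc hloc hreal
  obtain ⟨h1, h2, h3⟩ := hc
  -- the coordinate `n` is `p ^ m` times the coordinate `n + m`
  have hpow : ∀ (σ : Gal ℚ) (n j : ℕ), (p ^ j : ℕ) • c σ (n + j) = c σ n := by
    intro σ n j
    induction j with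
    | zero => rw [pow_zero, one_smul, add_zero]
    | succ j ih =>
      rw [pow_succ, mul_smul, ← add_assoc, (h2 σ (n + j)).1, ih]
  have hcob : ∀ n, ∃ P ∈ (⊤ : AddSubgroup (PtA W g (AlgebraicClosure ℚ))), ∀ σ,
      c σ n = actH W R σ P - P := by
    intro n
    obtain ⟨K, hK⟩ := Pool.Agent.R390.Abs.bdd_tor (p := p) (h1 (n + m)) (fun σ => (h2 σ (n + m)).2)
    obtain ⟨P, hP⟩ := hsha (fun σ => c σ (n + m)) ⟨h1 (n + m), fun σ τ => h3 σ τ (n + m)⟩
      (fun l _ ι => by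
        obtain ⟨Q, -, hQ⟩ := hloc l ι
        exact ⟨Q (n + m), fun τ σ hσ => hQ τ σ hσ (n + m)⟩)
      (fun ι => by
        obtain ⟨Q, -, hQ⟩ := hreal ι
        exact ⟨Q (n + m), fun τ σ hσ => hQ τ σ hσ (n + m)⟩) K hK
    refine ⟨P, AddSubgroup.mem_top _, fun σ => ?_⟩
    rw [← hpow σ n m]
    exact hP σ
  obtain ⟨x, hx1, hx2⟩ := Pool.Agent.R390.Abs.lift_sub (p := p)
    (⊤ : AddSubgroup (PtA W g (AlgebraicClosure ℚ)))
    (actH W R)
    (fun σ P _ => AddSubgroup.mem_top _) hp (hfin.subset (by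
      rintro P ⟨-, hP⟩
      exact fun σ => hP σ)) c
    (fun σ n => AddSubgroup.mem_top _) (fun σ n => (h2 σ n).1)
    (fun n => Pool.Agent.R390.Abs.bdd_tor (p := p) (h1 n) (fun σ => (h2 σ n).2)) hcob
  exact ⟨x, fun n => ⟨(hx1 n).2.1, (hx1 n).2.2⟩, hx2⟩

end Pool.Agent.K4H13.BK
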